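import Mathlib

namespace Pool.Agent.H.MP_27f3b7_al

variable {G : Type*} [Group G]

def Inv (α : MulAut G) (M : Subgroup G) : Prop := ∀ g, α g ∈ M ↔ g ∈ M

def Mx (α : MulAut G) (M : Subgroup G) : Prop :=
  Inv α M ∧ M ≠ ⊤ ∧ ∀ K, Inv α K → M ≤ K → K ≠ ⊤ → K = M

lemma Inv.pow {α : MulAut G} {M : Subgroup G} (h : Inv α M) (k : ℕ) (g : G) :
    (α ^ k) g ∈ M ↔ g ∈ M := by
  induction k with
  | zero => simp
  | succ k ih => rw [pow_succ', MulAut.mul_apply, h, ih]

lemma exists_mx [Finite G] (α : MulAut G) (H : Subgroup G) (h : Inv α H) (hH : H ≠ ⊤) :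
    ∃ M, Mx α M ∧ H ≤ M := by
  obtain ⟨M, hM, hmax⟩ := Set.Finite.exists_maximal
    (s := {K : Subgroup G | Inv α K ∧ K ≠ ⊤ ∧ H ≤ K}) (Set.toFinite _) ⟨H, h, hH, le_rfl⟩
  refine ⟨M, ⟨hM.1, hM.2.1, fun K hK hMK hKt => ?_⟩, hM.2.2⟩
  exact le_antisymm (hmax ⟨hK, hKt, hM.2.2.trans hMK⟩ hMK) hMK

lemma Mx.normal [Group.IsNilpotent G] {α : MulAut G} {M : Subgroup G} (h : Mx α M) :
    M.Normal := by
  have h1 : M < Subgroup.normalizer (M : Set G) :=
    normalizerCondition_of_isNilpotent M (lt_top_iff_ne_top.2 h.2.1)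
  have h2 : Inv α (Subgroup.normalizer (M : Set G)) := by
    intro g
    simp only [Subgroup.mem_normalizer_iff]
    constructor
    · intro hg x
      have := hg (α x)
      rw [← map_inv, ← map_mul, ← map_mul] at this
      rwa [h.1, h.1] at this
    · intro hg x
      obtain ⟨y, rfl⟩ := α.surjective x
      rw [← map_inv, ← map_mul, ← map_mul]
      rw [h.1, h.1]; exact hg y
  rw [← Subgroup.normalizer_eq_top_iff]
  by_contra hne
  exact h1.ne' (h.2.2 _ h2 h1.le hne)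

lemma comm_pow (α : MulAut G) (k : ℕ) (g : G) : (α ^ k) (α g) = α ((α ^ k) g) := by
  rw [← MulAut.mul_apply, ← MulAut.mul_apply, ← pow_succ, ← pow_succ']

lemma Mx.fpf [Group.IsNilpotent G] {α : MulAut G} {M : Subgroup G} (h : Mx α M) (k : ℕ)
    (hne : ∃ g, g⁻¹ * (α ^ k) g ∉ M) (g : G) (hg : g⁻¹ * (α ^ k) g ∈ M) : g ∈ M := by
  have hn := h.normal
  let K : Subgroup G :=
    { carrier := {g | g⁻¹ * (α ^ k) g ∈ M}
      mul_mem' := by
        intro a b ha hb
        simp only [Set.mem_ofPred_eq, map_mul] at ha hb ⊢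
        have := M.mul_mem (hn.conj_mem' _ ha b) hb
        have e : (a * b)⁻¹ * ((α ^ k) a * (α ^ k) b)
            = b⁻¹ * (a⁻¹ * (α ^ k) a) * b * (b⁻¹ * (α ^ k) b) := by group
        rw [e]; exact this
      one_mem' := by simp
      inv_mem' := by
        intro a ha
        simp only [Set.mem_ofPred_eq, map_inv] at ha ⊢
        have := hn.conj_mem _ (M.inv_mem ha) a
        have e : a⁻¹⁻¹ * ((α ^ k) a)⁻¹ = a * (a⁻¹ * (α ^ k) a)⁻¹ * a⁻¹ := by group
        rw [e]; exact this }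
  have hK : Inv α K := by
    intro x
    show (α x)⁻¹ * (α ^ k) (α x) ∈ M ↔ x⁻¹ * (α ^ k) x ∈ M
    rw [comm_pow, ← map_inv, ← map_mul, h.1]
  have hMK : M ≤ K := fun x hx => M.mul_mem (M.inv_mem hx) ((h.1.pow k x).2 hx)
  have hKt : K ≠ ⊤ := by
    obtain ⟨x, hx⟩ := hne
    intro ht
    have : x ∈ K := ht ▸ Subgroup.mem_top x
    exact hx this
  rw [← h.2.2 K hK hMK hKt]; exact hg

lemma dich [Finite G] [Group.IsNilpotent G] (β : MulAut G) (M : Subgroup G) [M.Normal]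
    (r : ℕ) (hr : r.Prime) (hβ : β ^ r = 1) (hfix : ∀ g, β g = g → g ∈ M)
    (htr : ∀ g, g⁻¹ * β g ∈ M) (g : G) : ∃ a, g ^ (r ^ a) ∈ M := by
  classical
  have hi : M.index ≠ 0 := Subgroup.index_ne_zero_of_finite
  suffices hs : ∀ p, p.Prime → p ∣ M.index → p = r by
    have := Nat.eq_prime_pow_of_unique_prime_dvd hi (fun {d} hd hdd => hs d hd hdd)
    exact ⟨_, this ▸ M.pow_index_mem g⟩
  intro p hp hpd
  by_contra hpr
  have := Fact.mk hp
  have := Fact.mk hr
  obtain ⟨P⟩ : Nonempty (Sylow p G) := inferInstance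
  have hPn : (P : Subgroup G).Normal := inferInstance
  have hPc : (P : Subgroup G).Characteristic := Sylow.characteristic_of_normal P hPn
  have hPM : (P : Subgroup G) ≤ M := by
    intro u hu
    have hPβ : ∀ y, β y ∈ (P : Subgroup G) ↔ y ∈ (P : Subgroup G) := by
      intro y
      have := Subgroup.characteristic_iff_comap_eq.1 hPc β
      conv_rhs => rw [← this]
      rfl
    let S : G → Prop := fun y => y ∈ (P : Subgroup G) ∧ u⁻¹ * y ∈ M
    have hS : ∀ y, S ((MulAut.toPerm G β) y) ↔ S y := by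
      intro y
      show (β y ∈ (P : Subgroup G) ∧ u⁻¹ * β y ∈ M) ↔ (y ∈ (P : Subgroup G) ∧ u⁻¹ * y ∈ M)
      rw [hPβ]
      have e : u⁻¹ * β y = u⁻¹ * y * (y⁻¹ * β y) := by group
      rw [e, M.mul_mem_cancel_right (htr y)]
    let σ : Equiv.Perm {y // S y} := (MulAut.toPerm G β).subtypePerm hS
    have hσ : σ ^ r ^ 1 = 1 := by
      rw [pow_one]
      show ((MulAut.toPerm G β).subtypePerm hS) ^ r = 1
      rw [Equiv.Perm.subtypePerm_pow]
      ext y
      simp only [Equiv.Perm.subtypePerm_apply, ← map_pow, hβ]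
      simp
    have : Fintype {y // S y} := Fintype.ofFinite _
    have e : {y // S y} ≃ ((P : Subgroup G) ⊓ M : Subgroup G) :=
      { toFun := fun y => ⟨u⁻¹ * y.1, Subgroup.mem_inf.2
          ⟨(P : Subgroup G).mul_mem ((P : Subgroup G).inv_mem hu) y.2.1, y.2.2⟩⟩
        invFun := fun z => ⟨u * z.1, (P : Subgroup G).mul_mem hu (Subgroup.mem_inf.1 z.2).1, by
          simpa using (Subgroup.mem_inf.1 z.2).2⟩
        left_inv := fun y => by simp
        right_inv := fun z => by simp }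
    have hc : ¬ r ∣ Fintype.card {y // S y} := by
      obtain ⟨m, hm⟩ := IsPGroup.iff_card.1 (P.isPGroup'.to_inf_left (K := M))
      rw [← Nat.card_eq_fintype_card, Nat.card_congr e, hm]
      intro hd
      exact hpr ((Nat.prime_dvd_prime_iff_eq hr hp).1 (hr.dvd_of_dvd_pow hd)).symm
    obtain ⟨y, hy⟩ := Equiv.Perm.exists_fixed_point_of_prime hc hσ
    have hy' : β y.1 = y.1 := congrArg Subtype.val hy
    have h1 := hfix _ hy'
    have h2 := y.2.2
    rw [M.mul_mem_cancel_right h1] at h2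
    exact (M.inv_mem_iff).1 h2
  exact P.not_dvd_index (hpd.trans (Subgroup.index_dvd_of_le hPM))

lemma ext_step (M : ℕ → Subgroup G) (c : ℕ → G) (J : Finset ℕ) (x : G)
    (hx : ∀ j ∈ J, (c j)⁻¹ * x ∉ M j) (r : ℕ) (ν : G) (hν : ∀ j ∈ J, ν ∈ M j) (hr : ν ∉ M r) :
    ∃ y, ∀ j ∈ insert r J, (c j)⁻¹ * y ∉ M j := by
  by_cases h : (c r)⁻¹ * x ∈ M r
  · refine ⟨x * ν, fun j hj => ?_⟩
    rw [← mul_assoc]
    rcases Finset.mem_insert.1 hj with rfl | hj
    · rwa [(M j).mul_mem_cancel_left h]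
    · rw [(M j).mul_mem_cancel_right (hν j hj)]; exact hx j hj
  · refine ⟨x, fun j hj => ?_⟩
    rcases Finset.mem_insert.1 hj with rfl | hj
    · exact h
    · exact hx j hj

lemma phase1 (M : ℕ → Subgroup G) (c : ℕ → G) (J : Finset ℕ)
    (hJ : ∀ j ∈ J, j.Prime ∧ M j ≠ ⊤ ∧ ∀ g : G, ∃ a, g ^ (j ^ a) ∈ M j) :
    ∃ y, ∀ j ∈ J, (c j)⁻¹ * y ∉ M j := by
  induction J using Finset.induction_on with
  | empty => exact ⟨1, by simp⟩
  | insert r J hrJ ih =>
    obtain ⟨x, hx⟩ := ih (fun j hj => hJ j (Finset.mem_insert_of_mem hj))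
    obtain ⟨hr, hrt, hrp⟩ := hJ r (Finset.mem_insert_self _ _)
    obtain ⟨g, hg⟩ : ∃ g, g ∉ M r := by
      by_contra hh; push Not at hh; exact hrt ((Subgroup.eq_top_iff' _).2 hh)
    have h2 : ∀ j, ∃ a, j ∈ J → g ^ (j ^ a) ∈ M j := by
      intro j
      by_cases hj : j ∈ J
      · obtain ⟨a, ha⟩ := (hJ j (Finset.mem_insert_of_mem hj)).2.2 g
        exact ⟨a, fun _ => ha⟩
      · exact ⟨0, fun h => absurd h hj⟩
    choose a ha using h2
    refine ext_step M c J x hx r (g ^ (∏ j ∈ J, j ^ a j)) (fun j hj => ?_) ?_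
    · obtain ⟨d, hd⟩ := Finset.dvd_prod_of_mem (fun j => j ^ a j) hj
      rw [hd, pow_mul]; exact (M j).pow_mem (ha j hj) d
    · intro hm
      obtain ⟨b, hb⟩ := hrp g
      have hco : Nat.Coprime (∏ j ∈ J, j ^ a j) (r ^ b) := by
        refine Nat.Coprime.prod_left (fun j hj => Nat.Coprime.pow _ _ ?_)
        refine (Nat.coprime_primes (hJ j (Finset.mem_insert_of_mem hj)).1 hr).2 ?_
        rintro rfl; exact hrJ hj
      apply hg
      have := Nat.gcd_eq_gcd_ab (∏ j ∈ J, j ^ a j) (r ^ b)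
      rw [hco] at this
      have e : g = (g ^ (∏ j ∈ J, j ^ a j)) ^ (Nat.gcdA (∏ j ∈ J, j ^ a j) (r ^ b)) *
          (g ^ (r ^ b)) ^ (Nat.gcdB (∏ j ∈ J, j ^ a j) (r ^ b)) := by
        rw [← zpow_natCast, ← zpow_natCast g, ← zpow_mul, ← zpow_mul, ← zpow_add, ← this]; simp
      rw [e]
      exact (M r).mul_mem ((M r).zpow_mem hm _) ((M r).zpow_mem hb _)

lemma phase2 (M : ℕ → Subgroup G) (c : ℕ → G) (J0 : Finset ℕ) (x0 : G)
    (h0 : ∀ j ∈ J0, (c j)⁻¹ * x0 ∉ M j) (T : Finset ℕ) :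
    ∃ (J : Finset ℕ) (x : G), J0 ⊆ J ∧ J ⊆ J0 ∪ T ∧ (∀ j ∈ J, (c j)⁻¹ * x ∉ M j) ∧
      ∀ r ∈ T, ∀ ν, (∀ j ∈ J, ν ∈ M j) → ν ∈ M r := by
  induction T using Finset.induction_on with
  | empty => exact ⟨J0, x0, subset_rfl, by simp, h0, by simp⟩
  | insert r T _ ih =>
    obtain ⟨J, x, h1, h2, h3, h4⟩ := ih
    have h2' : J ⊆ J0 ∪ insert r T :=
      h2.trans (Finset.union_subset_union_right (Finset.subset_insert _ _))
    by_cases h : ∀ ν, (∀ j ∈ J, ν ∈ M j) → ν ∈ M r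
    · refine ⟨J, x, h1, h2', h3, fun s hs => ?_⟩
      rcases Finset.mem_insert.1 hs with rfl | hs
      · exact h
      · exact h4 s hs
    · push Not at h
      obtain ⟨ν, hν, hr⟩ := h
      obtain ⟨y, hy⟩ := ext_step M c J x h3 r ν hν hr
      refine ⟨insert r J, y, h1.trans (Finset.subset_insert _ _),
        Finset.insert_subset (by simp) h2', hy, fun s hs μ hμ => ?_⟩
      rcases Finset.mem_insert.1 hs with rfl | hs
      · exact hμ _ (Finset.mem_insert_self _ _)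
      · exact h4 s hs μ (fun j hj => hμ j (Finset.mem_insert_of_mem hj))

theorem main [Finite G] [Group.IsNilpotent G] (α : MulAut G) (t : G) (A : Equiv.Perm G)
    (hA : ∀ x, A x = t * α x) : ∃ x, Function.minimalPeriod A x = orderOf A := by
  classical
  set n := orderOf A with hn
  have hn0 : 0 < n := orderOf_pos A
  have hmul : ∀ k x g, (A ^ k) (x * g) = (A ^ k) x * (α ^ k) g := by
    intro k
    induction k with
    | zero => simp
    | succ k ih =>
      intro x g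
      rw [pow_succ', pow_succ', Equiv.Perm.mul_apply, Equiv.Perm.mul_apply, MulAut.mul_apply, ih,
        hA, hA, map_mul, mul_assoc]
  have hαn : α ^ n = 1 := by
    ext g
    have := hmul n 1 g
    rw [hn, pow_orderOf_eq_one] at this
    simpa using this.symm
  have hdiff : ∀ k x y, (A ^ k) x = x → (A ^ k) y = y → (α ^ k) (x⁻¹ * y) = x⁻¹ * y := by
    intro k x y hx hy
    have := hmul k x (x⁻¹ * y)
    rw [mul_inv_cancel_left, hx, hy] at this
    rw [eq_inv_mul_iff_mul_eq]; exact this.symm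
  let R : Finset ℕ := n.primeFactors.filter (fun r => ∃ x, (A ^ (n / r)) x = x)
  have hex : ∀ r, ∃ (M : Subgroup G) (c : G), r ∈ R →
      Mx α M ∧ (∀ g, (α ^ (n / r)) g = g → g ∈ M) ∧ (A ^ (n / r)) c = c := by
    intro r
    by_cases hr : r ∈ R
    swap
    · exact ⟨⊥, 1, fun h => absurd h hr⟩
    obtain ⟨hr1, c, hc⟩ := Finset.mem_filter.1 hr
    let H : Subgroup G := MonoidHom.eqLocus (α ^ (n / r)).toMonoidHom (MonoidHom.id G)
    have hH : ∀ g, g ∈ H ↔ (α ^ (n / r)) g = g := fun g => Iff.rfl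
    have h1 : Inv α H := by
      intro g; rw [hH, hH, comm_pow]; exact α.injective.eq_iff
    have h2 : H ≠ ⊤ := by
      intro ht
      have : A ^ (n / r) = 1 := by
        ext y
        have := hmul (n / r) c (c⁻¹ * y)
        rw [mul_inv_cancel_left, hc, (hH _).1 (ht ▸ Subgroup.mem_top _), mul_inv_cancel_left]
          at this
        simpa using this
      have hp := Nat.prime_of_mem_primeFactors hr1
      have hd := Nat.dvd_of_mem_primeFactors hr1
      have h3 := Nat.le_of_dvd (Nat.div_pos (Nat.le_of_dvd hn0 hd) hp.pos)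
        (orderOf_dvd_of_pow_eq_one this)
      exact absurd (Nat.div_lt_self hn0 hp.one_lt) (not_lt.2 h3)
    obtain ⟨M, hM, hHM⟩ := exists_mx α H h1 h2
    exact ⟨M, c, fun _ => ⟨hM, fun g hg => hHM ((hH g).2 hg), hc⟩⟩
  choose M c hM using hex
  let J0 : Finset ℕ := R.filter (fun j => ∀ g : G, ∃ a, g ^ (j ^ a) ∈ M j)
  obtain ⟨x0, h0⟩ := phase1 M c J0 (fun j hj => by
    obtain ⟨h1, h2⟩ := Finset.mem_filter.1 hj
    exact ⟨Nat.prime_of_mem_primeFactors (Finset.mem_filter.1 h1).1, (hM j h1).1.2.1, h2⟩)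
  obtain ⟨J, x, h1, h2, h3, h4⟩ := phase2 M c J0 x0 h0 R
  have hJR : J ⊆ R := h2.trans (Finset.union_subset (Finset.filter_subset _ _) subset_rfl)
  have key : ∀ r ∈ n.primeFactors, (A ^ (n / r)) x ≠ x := by
    intro r hr hx
    have hrR : r ∈ R := Finset.mem_filter.2 ⟨hr, x, hx⟩
    obtain ⟨m1, m2, m3⟩ := hM r hrR
    by_cases hr0 : r ∈ J0
    · exact h3 r (h1 hr0) (m2 _ (hdiff _ _ _ m3 hx))
    have hnt : ∃ g, g⁻¹ * (α ^ (n / r)) g ∉ M r := by
      by_contra hh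
      push Not at hh
      have := m1.normal
      refine hr0 (Finset.mem_filter.2 ⟨hrR, dich (α ^ (n / r)) (M r) r
        (Nat.prime_of_mem_primeFactors hr) ?_ m2 hh⟩)
      rw [← pow_mul, Nat.div_mul_cancel (Nat.dvd_of_mem_primeFactors hr), hαn]
    obtain ⟨g, hg⟩ := hnt
    obtain ⟨j, hj, hgj⟩ : ∃ j ∈ J, g⁻¹ * (α ^ (n / r)) g ∉ M j := by
      by_contra hh
      push Not at hh
      exact hg (h4 r hrR _ hh)
    obtain ⟨l1, l2, l3⟩ := hM j (hJR hj)
    have e1 : (A ^ (n / j)) ((A ^ (n / r)) (c j)) = (A ^ (n / r)) (c j) := by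
      rw [← Equiv.Perm.mul_apply, ← pow_add, add_comm, pow_add, Equiv.Perm.mul_apply, l3]
    have e2 := l2 _ (hdiff _ _ _ l3 e1)
    have e3 := hmul (n / r) x (x⁻¹ * c j)
    rw [mul_inv_cancel_left, hx] at e3
    rw [e3] at e2
    have e4 : x⁻¹ * c j ∈ M j := by
      refine l1.fpf (n / r) ⟨g, hgj⟩ _ ?_
      rw [mul_inv_rev, inv_inv, mul_assoc]; exact e2
    apply h3 j hj
    simpa using (M j).inv_mem e4
  refine ⟨x, ?_⟩
  have hper : Function.IsPeriodicPt A n x := by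
    show A^[n] x = x
    rw [Equiv.Perm.iterate_eq_pow, hn, pow_orderOf_eq_one]; rfl
  obtain ⟨d, hd⟩ := hper.minimalPeriod_dvd
  by_contra hne
  have hd1 : d ≠ 1 := by rintro rfl; exact hne (by rw [hd, mul_one])
  obtain ⟨r, hr, e, rfl⟩ := Nat.exists_prime_and_dvd hd1
  refine key r (Nat.mem_primeFactors.2 ⟨hr, ⟨Function.minimalPeriod A x * e, by
    rw [hd]; ring⟩, hn0.ne'⟩) ?_
  have : n / r = Function.minimalPeriod A x * e := by
    apply Nat.div_eq_of_eq_mul_left hr.pos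
    conv_lhs => rw [hd]
    ring
  rw [this, ← Equiv.Perm.iterate_eq_pow]
  exact (Function.isPeriodicPt_minimalPeriod A x).mul_const e

end Pool.Agent.H.MP_27f3b7_al
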